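import Pool.Agent.Q27.LT.Tree

/-! Project LT (helper27), jobs TREE1 and TREE2: trees of words and their contours. -/

set_option autoImplicit false

namespace Pool.Agent.Q251.LT

open Pool.Agent.Q27.LT

theorem has_nd_cons (c : D → Tr) (s : D) (π : List D) : (Tr.nd c).has (s :: π) ↔ (c s).has π := by
  rw [Tr.has]

theorem has_nd_nil (c : D → Tr) : (Tr.nd c).has [] := by
  rw [Tr.has]
  trivial

theorem not_has_nil (π : List D) : ¬ (Tr.nil).has π := by
  rw [Tr.has]
  exact id

theorem isNil_iff (t : Tr) : t.isNil = true ↔ t = .nil := by
  cases t with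
  | nil => exact ⟨fun _ => rfl, fun _ => rfl⟩
  | nd c => exact ⟨fun h => (by simp [Tr.isNil] at h), fun h => (by cases h)⟩

theorem has_nil_iff (t : Tr) : t.has [] ↔ t.isNil = false := by
  cases t with
  | nil => exact ⟨fun h => absurd h (not_has_nil []), fun h => (by simp [Tr.isNil] at h)⟩
  | nd c => exact ⟨fun _ => rfl, fun _ => has_nd_nil c⟩

theorem isNil_of_has {t : Tr} {π : List D} (h : t.has π) : t.isNil = false := by
  cases t with
  | nil => exact absurd h (not_has_nil π)
  | nd c => rfl

theorem s_ext : S_ext := by
  intro t
  induction t with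
  | nil =>
    intro t' h
    cases t' with
    | nil => rfl
    | nd c => exact absurd ((h []).2 (has_nd_nil c)) (not_has_nil [])
  | nd c ih =>
    intro t' h
    cases t' with
    | nil => exact absurd ((h []).1 (has_nd_nil c)) (not_has_nil [])
    | nd c' =>
      congr 1
      funext s
      apply ih s
      intro π
      have := h (s :: π)
      rwa [has_nd_cons, has_nd_cons] at this

theorem ins_nil_nil : ins [] .nil = .nd (fun _ => .nil) := by rw [ins]
theorem ins_nil_nd (c : D → Tr) : ins [] (.nd c) = .nd c := by rw [ins]
theorem ins_cons_nil (s : D) (π : List D) :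
    ins (s :: π) .nil = .nd (Function.update (fun _ => .nil) s (ins π .nil)) := by rw [ins]
theorem ins_cons_nd (s : D) (π : List D) (c : D → Tr) :
    ins (s :: π) (.nd c) = .nd (Function.update c s (ins π (c s))) := by rw [ins]

theorem s_ins : S_ins := by
  intro ρ
  induction ρ with
  | nil =>
    intro t π
    cases t with
    | nil =>
      rw [ins_nil_nil, List.prefix_nil]
      cases π with
      | nil => exact ⟨fun _ => Or.inr rfl, fun _ => has_nd_nil _⟩
      | cons r π' =>
        rw [has_nd_cons]
        constructor
        · intro h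
          exact absurd h (not_has_nil π')
        · rintro (h | h)
          · exact absurd h (not_has_nil _)
          · cases h
    | nd c =>
      rw [ins_nil_nd, List.prefix_nil]
      constructor
      · intro h
        exact Or.inl h
      · rintro (h | h)
        · exact h
        · rw [h]
          exact has_nd_nil c
  | cons s ρ' ih =>
    intro t π
    cases t with
    | nil =>
      rw [ins_cons_nil]
      cases π with
      | nil => exact ⟨fun _ => Or.inr List.nil_prefix, fun _ => has_nd_nil _⟩
      | cons r π' =>
        rw [has_nd_cons, List.cons_prefix_cons]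
        by_cases hr : r = s
        · subst hr
          rw [Function.update_self, ih]
          constructor
          · rintro (h | h)
            · exact absurd h (not_has_nil _)
            · exact Or.inr ⟨rfl, h⟩
          · rintro (h | h)
            · exact absurd h (not_has_nil _)
            · exact Or.inr h.2
        · rw [Function.update_of_ne hr]
          constructor
          · intro h
            exact absurd h (not_has_nil _)
          · rintro (h | h)
            · exact absurd h (not_has_nil _)
            · exact absurd h.1 hr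
    | nd c =>
      rw [ins_cons_nd]
      cases π with
      | nil => exact ⟨fun _ => Or.inr List.nil_prefix, fun _ => has_nd_nil _⟩
      | cons r π' =>
        rw [has_nd_cons, has_nd_cons, List.cons_prefix_cons]
        by_cases hr : r = s
        · subst hr
          rw [Function.update_self, ih]
          constructor
          · rintro (h | h)
            · exact Or.inl h
            · exact Or.inr ⟨rfl, h⟩
          · rintro (h | h)
            · exact Or.inl h
            · exact Or.inr h.2
        · rw [Function.update_of_ne hr]
          constructor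
          · intro h
            exact Or.inl h
          · rintro (h | h)
            · exact h
            · exact absurd h.1 hr

theorem vis_nil (acc : List D) (b : Option D) : vis .nil acc b = [] := by rw [vis]

theorem vis_nd (c : D → Tr) (acc : List D) (b : Option D) :
    vis (.nd c) acc b = pc c acc (0, false) ++ pc c acc (0, true) ++ pc c acc (1, false) ++
      pc c acc (1, true) ++ [(acc, b)] := by
  rw [vis]
  rfl

theorem s_cut : S_cut := by
  intro c acc b s
  rw [vis_nd]
  obtain ⟨i, j⟩ := s
  fin_cases i <;> cases j
  · have h1 : lo ((0 : Fin 2), false) = [] := by decide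
    have h2 : hi ((0 : Fin 2), false) = [(0, true), (1, false), (1, true)] := by decide
    show _ = (lo ((0 : Fin 2), false)).flatMap (pc c acc) ++ pc c acc ((0 : Fin 2), false) ++
      (hi ((0 : Fin 2), false)).flatMap (pc c acc) ++ [(acc, b)]
    rw [h1, h2]
    simp [List.flatMap_cons, List.append_assoc]
  · have h1 : lo ((0 : Fin 2), true) = [(0, false)] := by decide
    have h2 : hi ((0 : Fin 2), true) = [(1, false), (1, true)] := by decide
    show _ = (lo ((0 : Fin 2), true)).flatMap (pc c acc) ++ pc c acc ((0 : Fin 2), true) ++
      (hi ((0 : Fin 2), true)).flatMap (pc c acc) ++ [(acc, b)]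
    rw [h1, h2]
    simp [List.flatMap_cons, List.append_assoc]
  · have h1 : lo ((1 : Fin 2), false) = [(0, false), (0, true)] := by decide
    have h2 : hi ((1 : Fin 2), false) = [(1, true)] := by decide
    show _ = (lo ((1 : Fin 2), false)).flatMap (pc c acc) ++ pc c acc ((1 : Fin 2), false) ++
      (hi ((1 : Fin 2), false)).flatMap (pc c acc) ++ [(acc, b)]
    rw [h1, h2]
    simp [List.flatMap_cons, List.append_assoc]
  · have h1 : lo ((1 : Fin 2), true) = [(0, false), (0, true), (1, false)] := by decide
    have h2 : hi ((1 : Fin 2), true) = [] := by decide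
    show _ = (lo ((1 : Fin 2), true)).flatMap (pc c acc) ++ pc c acc ((1 : Fin 2), true) ++
      (hi ((1 : Fin 2), true)).flatMap (pc c acc) ++ [(acc, b)]
    rw [h1, h2]
    simp [List.flatMap_cons, List.append_assoc]

theorem mem_vis_nd (c : D → Tr) (acc : List D) (b : Option D) (v : List D × Option D) :
    v ∈ vis (.nd c) acc b ↔ (∃ s, v ∈ pc c acc s) ∨ v = (acc, b) := by
  rw [vis_nd]
  simp only [List.mem_append, List.mem_singleton]
  constructor
  · rintro ((((h | h) | h) | h) | h)
    · exact Or.inl ⟨_, h⟩
    · exact Or.inl ⟨_, h⟩
    · exact Or.inl ⟨_, h⟩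
    · exact Or.inl ⟨_, h⟩
    · exact Or.inr h
  · rintro (⟨⟨i, j⟩, h⟩ | h)
    · fin_cases i <;> cases j
      · exact Or.inl (Or.inl (Or.inl (Or.inl h)))
      · exact Or.inl (Or.inl (Or.inl (Or.inr h)))
      · exact Or.inl (Or.inl (Or.inr h))
      · exact Or.inl (Or.inr h)
    · exact Or.inr h

theorem mem_pc (c : D → Tr) (acc : List D) (s : D) (v : List D × Option D) :
    v ∈ pc c acc s ↔ (c s).isNil = false ∧
      (v = (acc, some s) ∨ v ∈ vis (c s) (acc ++ [s]) (some (iv s))) := by
  unfold pc
  by_cases h : (c s).isNil = true
  · rw [if_pos h, h]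
    simp
  · rw [if_neg h, List.mem_cons]
    have : (c s).isNil = false := by simpa using h
    rw [this]
    simp

theorem pc_of_nil {c : D → Tr} {acc : List D} {s : D} (h : c s = .nil) : pc c acc s = [] := by
  unfold pc
  rw [if_pos ((isNil_iff _).2 h)]

theorem pc_of_ne {c : D → Tr} {acc : List D} {s : D} (h : (c s).isNil = false) :
    pc c acc s = (acc, some s) :: vis (c s) (acc ++ [s]) (some (iv s)) := by
  unfold pc
  rw [if_neg (by rw [h]; decide)]

theorem s_node : S_node := by
  intro t
  induction t with
  | nil =>
    intro acc b v hv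
    rw [vis_nil] at hv
    cases hv
  | nd c ih =>
    intro acc b v hv
    rw [mem_vis_nd] at hv
    rcases hv with ⟨s, hs⟩ | hv
    · rw [mem_pc] at hs
      obtain ⟨h1, h2 | h2⟩ := hs
      · refine ⟨[], ?_, has_nd_nil c⟩
        rw [h2, List.append_nil]
      · obtain ⟨π, h3, h4⟩ := ih s _ _ v h2
        refine ⟨s :: π, ?_, (has_nd_cons c s π).2 h4⟩
        rw [h3]
        simp
    · refine ⟨[], ?_, has_nd_nil c⟩
      rw [hv, List.append_nil]

theorem back_cons (s : D) (π : List D) (b : Option D) : back (s :: π) b = back π (some (iv s)) := by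
  unfold back
  cases π with
  | nil => rfl
  | cons r π' => rw [List.getLast?_cons_cons]; cases h : (r :: π').getLast? with
    | none => simp at h
    | some l => rfl

theorem app_ne (acc : List D) (s : D) (π : List D) : acc ++ [s] ++ π ≠ acc := by
  intro h
  have := congrArg List.length h
  simp at this

theorem app_inj {acc : List D} {r s : D} {π π' : List D} (h : acc ++ [r] ++ π = acc ++ (s :: π')) :
    r = s ∧ π = π' := by
  rw [List.append_assoc, List.append_cancel_left_eq] at h
  have h' : r :: π = s :: π' := h
  exact List.cons.inj h'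

theorem s_mem : S_mem := by
  intro t
  induction t with
  | nil =>
    intro acc π b o
    rw [vis_nil]
    constructor
    · intro h
      cases h
    · rintro (⟨c, -, h⟩ | ⟨h, -⟩)
      · exact absurd h (not_has_nil _)
      · exact absurd h (not_has_nil _)
  | nd c ih =>
    intro acc π b o
    rw [mem_vis_nd]
    cases π with
    | nil =>
      rw [List.append_nil]
      constructor
      · rintro (⟨s, hs⟩ | hv)
        · rw [mem_pc] at hs
          obtain ⟨h1, h2 | h2⟩ := hs
          · left
            refine ⟨s, (Prod.mk.inj h2).2, ?_⟩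
            show (Tr.nd c).has [s]
            rw [has_nd_cons, has_nil_iff]
            exact h1
          · obtain ⟨π', h3, -⟩ := s_node _ _ _ _ h2
            exact absurd h3.symm (app_ne acc s π')
        · right
          exact ⟨has_nd_nil c, (Prod.mk.inj hv).2⟩
      · rintro (⟨s, h1, h2⟩ | ⟨-, h1⟩)
        · left
          refine ⟨s, (mem_pc c acc s _).2 ⟨?_, Or.inl (by rw [h1])⟩⟩
          have h3 : (Tr.nd c).has [s] := h2
          rwa [has_nd_cons, has_nil_iff] at h3
        · right
          rw [h1]
          rfl
    | cons s π' =>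
      rw [back_cons]
      have e1 : ∀ c1 : D, (Tr.nd c).has (s :: π' ++ [c1]) ↔ (c s).has (π' ++ [c1]) := by
        intro c1
        rw [List.cons_append, has_nd_cons]
      simp only [e1, has_nd_cons]
      rw [← ih s (acc ++ [s]) π' (some (iv s)) o]
      have e2 : acc ++ (s :: π') = acc ++ [s] ++ π' := by simp
      rw [e2]
      constructor
      · rintro (⟨r, hr⟩ | hv)
        · rw [mem_pc] at hr
          obtain ⟨h1, h2 | h2⟩ := hr
          · exact absurd (Prod.mk.inj h2).1 (app_ne acc s π')
          · obtain ⟨π'', h3, -⟩ := s_node _ _ _ _ h2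
            have h4 : acc ++ [r] ++ π'' = acc ++ (s :: π') := by
              rw [← h3, e2]
            obtain ⟨h5, h6⟩ := app_inj h4
            subst h5
            exact h2
        · exact absurd (Prod.mk.inj hv).1 (app_ne acc s π')
      · intro h
        left
        refine ⟨s, (mem_pc c acc s _).2 ⟨?_, Or.inr h⟩⟩
        obtain ⟨π'', -, h4⟩ := s_node _ _ _ _ h
        exact isNil_of_has h4

/-! ### adding a leaf -/

theorem mem_lo {s t : D} (h : t ∈ lo s) : rk t < rk s := by
  unfold lo at h
  rw [List.mem_filter] at h
  simpa using h.2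

theorem mem_hi {s t : D} (h : t ∈ hi s) : rk s < rk t := by
  unfold hi at h
  rw [List.mem_filter] at h
  simpa using h.2

theorem flatMap_congr' {c c' : D → Tr} {acc : List D} (Ls : List D) (h : ∀ s ∈ Ls, c s = c' s) :
    Ls.flatMap (pc c acc) = Ls.flatMap (pc c' acc) := by
  induction Ls with
  | nil => rfl
  | cons s Ls ih =>
    rw [List.flatMap_cons, List.flatMap_cons, ih fun t ht => h t (List.mem_cons_of_mem _ ht)]
    congr 1
    unfold pc
    rw [h s List.mem_cons_self]

theorem head_flatMap (c : D → Tr) (acc : List D) (b : Option D) (Ls : List D) :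
    ∃ (o : Option D) (B' : List (List D × Option D)),
      Ls.flatMap (pc c acc) ++ [(acc, b)] = (acc, o) :: B' ∧
      (o = b ∨ ∃ s ∈ Ls, o = some s ∧ (c s).isNil = false) := by
  induction Ls with
  | nil => exact ⟨b, [], rfl, Or.inl rfl⟩
  | cons s Ls ih =>
    rw [List.flatMap_cons]
    by_cases h : (c s).isNil = true
    · rw [pc_of_nil ((isNil_iff _).1 h), List.nil_append]
      obtain ⟨o, B', h1, h2⟩ := ih
      refine ⟨o, B', h1, ?_⟩
      rcases h2 with h2 | ⟨t, ht, h3⟩
      · exact Or.inl h2
      · exact Or.inr ⟨t, List.mem_cons_of_mem _ ht, h3⟩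
    · have h' : (c s).isNil = false := by simpa using h
      rw [pc_of_ne h']
      exact ⟨some s, _, rfl, Or.inr ⟨s, List.mem_cons_self, rfl, h'⟩⟩

theorem ins_isNil (ρ : List D) (t : Tr) : (ins ρ t).isNil = false := by
  rw [← has_nil_iff, s_ins]
  exact Or.inr List.nil_prefix

theorem s_insert (h1 : S_cut) (h2 : S_node) : S_insert := by
  intro t acc π b d
  induction π generalizing t acc b with
  | nil =>
    intro hp hd
    cases t with
    | nil => exact absurd hp (not_has_nil _)
    | nd c =>
      have hd' : c d = .nil := by
        have h3 : ¬ (Tr.nd c).has [d] := hd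
        rw [has_nd_cons, has_nil_iff] at h3
        rw [← isNil_iff]
        simpa using h3
      have e0 : ins ([] ++ [d]) (.nd c) = .nd (Function.update c d (.nd fun _ => .nil)) := by
        show ins [d] (.nd c) = _
        rw [ins_cons_nd, hd', ins_nil_nil]
      set c' := Function.update c d (.nd fun _ => .nil) with hc'
      have hc's : ∀ s, s ≠ d → c s = c' s := fun s hs => (Function.update_of_ne hs _ _).symm
      have hc'd : c' d = .nd fun _ => .nil := Function.update_self _ _ _
      refine ⟨(lo d).flatMap (pc c acc), (hi d).flatMap (pc c acc) ++ [(acc, b)], ?_, ?_, ?_, ?_⟩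
      · rw [h1 c acc b d, pc_of_nil hd']
        simp [List.append_assoc]
      · rw [e0, h1 c' acc b d]
        rw [← flatMap_congr' (lo d) (fun s hs => hc's s (by
          rintro rfl
          exact absurd (mem_lo hs) (lt_irrefl _)))]
        rw [← flatMap_congr' (hi d) (fun s hs => hc's s (by
          rintro rfl
          exact absurd (mem_hi hs) (lt_irrefl _)))]
        rw [pc_of_ne (by rw [hc'd]; rfl), hc'd]
        have e1 : vis (.nd fun _ => .nil) (acc ++ [d]) (some (iv d)) = [(acc ++ [d], some (iv d))] := by
          rw [vis_nd]
          rw [pc_of_nil rfl, pc_of_nil rfl, pc_of_nil rfl, pc_of_nil rfl]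
          rfl
        rw [e1]
        simp [List.append_assoc]
      · intro v hv hv1
        rw [List.mem_flatMap] at hv
        obtain ⟨s, hs, hv⟩ := hv
        rw [mem_pc] at hv
        obtain ⟨h3, h4 | h4⟩ := hv
        · refine ⟨s, by rw [h4], mem_lo hs, ?_⟩
          show (Tr.nd c).has [s]
          rw [has_nd_cons, has_nil_iff]
          exact h3
        · obtain ⟨π', h5, -⟩ := h2 _ _ _ _ h4
          rw [h5, List.append_nil] at hv1
          exact absurd hv1 (app_ne acc s π')
      · obtain ⟨o, B', h3, h4⟩ := head_flatMap c acc b (hi d)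
        refine ⟨o, B', by rw [List.append_nil]; exact h3, ?_⟩
        rcases h4 with h4 | ⟨s, hs, h5, h6⟩
        · exact Or.inl h4
        · refine Or.inr ⟨s, h5, mem_hi hs, ?_⟩
          show (Tr.nd c).has [s]
          rw [has_nd_cons, has_nil_iff]
          exact h6
  | cons s π' ih =>
    intro hp hd
    cases t with
    | nil => exact absurd hp (not_has_nil _)
    | nd c =>
      rw [has_nd_cons] at hp
      have hd' : ¬ (c s).has (π' ++ [d]) := by
        rwa [List.cons_append, has_nd_cons] at hd
      obtain ⟨A', B', g1, g2, g3, o, B'', g4, g5⟩ := ih (c s) (acc ++ [s]) (some (iv s)) hp hd'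
      have hcs : (c s).isNil = false := isNil_of_has hp
      have e0 : ins (s :: π' ++ [d]) (.nd c) =
          .nd (Function.update c s (ins (π' ++ [d]) (c s))) := by
        rw [List.cons_append, ins_cons_nd]
      set c' := Function.update c s (ins (π' ++ [d]) (c s)) with hc'
      have hc's : ∀ r, r ≠ s → c r = c' r := fun r hr => (Function.update_of_ne hr _ _).symm
      have hc'd : c' s = ins (π' ++ [d]) (c s) := Function.update_self _ _ _
      have e2 : acc ++ (s :: π') = acc ++ [s] ++ π' := by simp
      have e3 : acc ++ (s :: π' ++ [d]) = acc ++ [s] ++ (π' ++ [d]) := by simp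
      refine ⟨(lo s).flatMap (pc c acc) ++ (acc, some s) :: A',
        B' ++ (hi s).flatMap (pc c acc) ++ [(acc, b)], ?_, ?_, ?_, ?_⟩
      · rw [h1 c acc b s, pc_of_ne hcs, g1]
        simp [List.append_assoc]
      · rw [e0, h1 c' acc b s]
        rw [← flatMap_congr' (lo s) (fun r hr => hc's r (by
          rintro rfl
          exact absurd (mem_lo hr) (lt_irrefl _)))]
        rw [← flatMap_congr' (hi s) (fun r hr => hc's r (by
          rintro rfl
          exact absurd (mem_hi hr) (lt_irrefl _)))]
        rw [pc_of_ne (by rw [hc'd]; exact ins_isNil _ _), hc'd, g2, e2, e3]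
        simp [List.append_assoc]
      · intro v hv hv1
        rw [List.mem_append, List.mem_cons, List.mem_flatMap] at hv
        rcases hv with ⟨r, hr, hv⟩ | hv | hv
        · rw [mem_pc] at hv
          obtain ⟨h3, h4 | h4⟩ := hv
          · rw [h4, e2] at hv1
            exact absurd hv1.symm (app_ne acc s π')
          · obtain ⟨π'', h5, -⟩ := h2 _ _ _ _ h4
            rw [h5] at hv1
            obtain ⟨h6, -⟩ := app_inj hv1
            subst h6
            exact absurd (mem_lo hr) (lt_irrefl _)
        · rw [hv, e2] at hv1
          exact absurd hv1.symm (app_ne acc s π')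
        · obtain ⟨c1, h3, h4, h5⟩ := g3 v hv (hv1.trans e2)
          refine ⟨c1, h3, h4, ?_⟩
          rw [List.cons_append, has_nd_cons]
          exact h5
      · refine ⟨o, B'' ++ (hi s).flatMap (pc c acc) ++ [(acc, b)], ?_, ?_⟩
        · rw [g4, e2]
          simp [List.append_assoc]
        · rw [back_cons]
          rcases g5 with h3 | ⟨c1, h3, h4, h5⟩
          · exact Or.inl h3
          · refine Or.inr ⟨c1, h3, h4, ?_⟩
            rw [List.cons_append, has_nd_cons]
            exact h5

end Pool.Agent.Q251.LT
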